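import Pool.Agent.TH882.J5

/-!
# Goldbach representations with a prime from a cluster have the conjectured order of magnitude

For all `m`, `ε > 0` and `κ > 0` there is `c > 0` such that for all large `x` and all even `N ≤ x`, with at most `κ x`
exceptions, at least `c N ^ 2 / (φ(N) log ^ 2 N)` of the representations `N = p + q` as a sum of two primes have a first
prime `p` with at least `m` other primes at distance at most `ε log N`.

The theorem is assembled from the starting files: the primes with `m` close neighbours have a positive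
relative density in all but few reduced residue classes to moduli `W` which tend to infinity
(`Pool.Agent.TH882.J2`, a refinement of the theorem of Goldston, Pintz and Yildirim, and of Maynard and Tao, on positive
proportions of small gaps), and a transference theorem for Goldbach's problem with one prime restricted to such a set
(`Pool.Agent.TH882.J5`).
-/

set_option autoImplicit false

namespace Pool.Agent.Results.MP_629a14_nt.ClusteredSummands

open Finset Filter Topology

open Classical in
/-- The primes different from `p` at distance at most `R` from `p`. -/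
noncomputable def neighbours (R : ℝ) (p : ℕ) : Finset ℕ :=
  (Icc 1 (p + ⌊R⌋₊)).filter (fun q => q.Prime ∧ q ≠ p ∧ |(q : ℝ) - p| ≤ R)

open Classical in
/-- The number of the representations `N = p + (N - p)` as a sum of two primes in which at least `m` other primes are
at distance at most `ε log N` from the first prime `p`. -/
noncomputable def clusteredCount (m : ℕ) (ε : ℝ) (N : ℕ) : ℕ :=
  ((Icc 1 (N - 1)).filter (fun p => p.Prime ∧ (N - p).Prime ∧
    m ≤ (neighbours (ε * Real.log N) p).card)).card

open Classical in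
/-- The even `N ≤ x` with fewer than `c N ^ 2 / (φ(N) log ^ 2 N)` such representations. -/
noncomputable def exceptions (m : ℕ) (ε c : ℝ) (x : ℕ) : Finset ℕ :=
  (Icc 1 x).filter (fun N => Even N ∧
    (clusteredCount m ε N : ℝ) < c * ((N : ℝ) ^ 2 / (N.totient * Real.log N ^ 2)))

/-- For all `m`, `ε > 0` and `κ > 0` there is `c > 0` such that for all large `x` all but at most `κ x` of the even
`N ≤ x` have at least `c N ^ 2 / (φ(N) log ^ 2 N)` representations `N = p + q` as a sum of two primes in which at least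
`m` other primes are at distance at most `ε log N` from `p`. -/
theorem result (m : ℕ) (ε κ : ℝ) (hε : 0 < ε) (hκ : 0 < κ) : ∃ c : ℝ, 0 < c ∧
    ∀ᶠ x : ℕ in atTop, ((exceptions m ε c x).card : ℝ) ≤ κ * x := by
  classical
  obtain ⟨c, hc, X₀, h⟩ := Pool.Agent.TH882.JS.goldbach_most
    (Pool.Agent.TH882.JS.KP m ε) (Pool.Agent.TH882.JS.KP_most m ε hε) (κ / 2) (by positivity)
  refine ⟨c, hc, ?_⟩
  rw [eventually_atTop]
  apply Pool.Agent.TH882.JS.dyadic2 _ κ hκ
  refine ⟨max X₀ 3, fun X hX => (le_trans ?_ (h X (by omega)))⟩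
  have hX3 : 3 ≤ X := by omega
  apply Nat.cast_le.2
  apply card_le_card
  intro N hN
  rw [mem_filter, mem_Ico] at hN ⊢
  obtain ⟨⟨hN1, hN2⟩, hNe, hNl⟩ := hN
  refine ⟨⟨hN1, hN2⟩, hNe, lt_of_le_of_lt ?_ hNl⟩
  apply Nat.cast_le.2
  unfold clusteredCount
  apply card_le_card
  intro p hp
  unfold Pool.Agent.TH882.JS.GA at hp
  rw [mem_filter, mem_Ico] at hp
  obtain ⟨⟨hp1, hp2⟩, hpA, hpN⟩ := hp
  unfold Pool.Agent.TH882.JS.KP at hpA
  rw [mem_filter] at hpA
  rw [mem_filter, mem_Icc]
  refine ⟨⟨by omega, by omega⟩, hpA.2.1, hpN, hpA.2.2.trans ?_⟩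
  unfold Pool.Agent.TH882.JS.nb neighbours
  apply card_le_card
  have hX1 : (1 : ℝ) ≤ X := by exact_mod_cast (by omega : 1 ≤ X)
  have hXN : (X : ℝ) ≤ N := by exact_mod_cast (by omega : X ≤ N)
  have hlog : Real.log X ≤ Real.log N := Real.log_le_log (by linarith) hXN
  have hlog0 : 0 ≤ Real.log X := Real.log_nonneg hX1
  have hR : ε * Real.log X ≤ ε * Real.log N := mul_le_mul_of_nonneg_left hlog hε.le
  have hfl : ⌊ε * Real.log X⌋₊ ≤ ⌊ε * Real.log N⌋₊ := Nat.floor_le_floor hR
  have hfl2 : ((⌊ε * Real.log X⌋₊ : ℕ) : ℝ) ≤ ε * Real.log N :=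
    (Nat.floor_le (by positivity)).trans hR
  intro q hq
  rw [mem_filter, mem_Icc] at hq ⊢
  obtain ⟨⟨hq1, hq2⟩, hq3, hq4⟩ := hq
  refine ⟨⟨hq3.pos, by omega⟩, hq3, hq4, ?_⟩
  rw [abs_le]
  have e1 : (q : ℝ) ≤ p + (⌊ε * Real.log X⌋₊ : ℕ) := by exact_mod_cast hq2
  have e2 : (p : ℝ) ≤ q + (⌊ε * Real.log X⌋₊ : ℕ) := by
    have : p ≤ q + ⌊ε * Real.log X⌋₊ := by omega
    exact_mod_cast this
  constructor <;> linarith

end Pool.Agent.Results.MP_629a14_nt.ClusteredSummands
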