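import Pool.Agent.X31.E9
import Pool.Agent.TH894.SM0

/-!
# The order of magnitude of the Goldbach representation numbers near the values of generalised polynomials

`f(t) = ∑ a_x t ^ x` is an arbitrary finite real combination of arbitrary real powers of `t` whose largest
exponent `c` is positive. For almost all elements `n` of an arbitrary set `A ⊆ {1, ..., Y}` with at least
`Y / log ^ D Y` elements (for instance: the primes up to `Y`), with at most `|A| / log ^ U Y` exceptions, ALL even
numbers `m > 0` at a distance of at most `log ^ D Y` from `k + f(n)` satisfy the asymptotic formula of Hardy and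
Littlewood for the number of representations as a sum of two primes, with a relative error of at most `ε`, and so
this number is between `(1 - ε) C₂` and `1 + ε` times `m² / (φ(m) log² m)`. Here `k` is an arbitrary real number
with `|k| ≤ Y ^ c log ^ D Y`, and everything is uniform in `A` and `k`.

Method. The formula holds for almost all members of every family of even numbers with small additive energy of
some order (`Pool.Agent.W93.GB.fam`, `Pool.Agent.TH935.GF.transfer`: starting files). The new part is the bound for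
the real additive energy: the number of the solutions of
`|f(x_1) + ... + f(x_h) - f(y_1) - ... - f(y_h)| ≤ R` with all `x_i, y_i ≤ Y` is at most
`C R Y ^ (2 h - c) (1 + log Y) ^ E`, for some `h`, `C`, `E` which depend on `f`. It is derived from bounds
for the exponential sums `∑ e(α f(n))` which save a power of `α Y ^ c`, for all `α` between `Y ^ (-c)` and `1` (van der
Corput's method, with different numbers of differencing steps for different `α` if `c` is an integer and there
is a positive exponent which is not an integer) or, if all positive exponents are integers, from a sharp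
inverse theorem for Weyl sums (`Pool.Agent.H373R2.NB.IW_all`, starting files).

Definitions used from `Pool.Agent.H560R3.GB` (starting files): `C₂`: the twin prime constant
`∏_{p > 2} (1 - 1 / (p - 1) ^ 2)`; `sing n`: the singular series `2 C₂ ∏_{p ∣ n, p > 2} (p - 1) / (p - 2)`; `g n`: the
number of ordered representations of `n` as a sum of two primes (`r₂(n; ℙ)` in the problem);
`HL n = sing n * n / log ^ 2 n`: the prediction of Hardy and Littlewood for `g n`.
-/

set_option autoImplicit false

namespace Pool.Agent.Results.MP_629a14_nt.GeneralisedPolynomials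

open Finset Pool.Agent.H560R3.GB

/-- the generalised polynomial with the exponents `x ∈ F` and the coefficients `a x` -/
noncomputable def f (F : Finset ℝ) (a : ℝ → ℝ) (t : ℝ) : ℝ := ∑ x ∈ F, a x * t ^ x

/-- (1) the number of representations of `m` as a sum of two primes agrees with the prediction of Hardy
and Littlewood up to a relative error of at most `ε`; (2) it lies between `(1 - ε) C₂` and `1 + ε` times
`m² / (φ(m) log² m)`. -/
def Holds (ε : ℝ) (m : ℕ) : Prop :=
  |(g m : ℝ) - HL m| ≤ ε * HL m ∧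
  (1 - ε) * C₂ * ((m : ℝ) ^ 2 / (m.totient * Real.log m ^ 2)) ≤ g m ∧
  (g m : ℝ) ≤ (1 + ε) * ((m : ℝ) ^ 2 / (m.totient * Real.log m ^ 2))

lemma C₂_nonneg : 0 ≤ C₂ := by
  unfold C₂
  apply Real.iInf_nonneg
  intro z
  apply prod_nonneg
  intro p hp
  rw [mem_filter, mem_Icc] at hp
  exact (Pool.Agent.TH894.SM.fac_pos p hp.1.1).le

lemma holds_of (ε : ℝ) (hε : 0 < ε) (n : ℕ) (hn : 2 ≤ n) (h2 : 2 ∣ n)
    (h1 : |(g n : ℝ) - HL n| ≤ ε * HL n) : Holds ε n := by
  have hn0 : n ≠ 0 := by omega
  have hnr : (0 : ℝ) < n := by exact_mod_cast Nat.pos_of_ne_zero hn0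
  have hl : 0 < Real.log n := Real.log_pos (by exact_mod_cast (by omega : 1 < n))
  have ht : (0 : ℝ) < n.totient := by exact_mod_cast Nat.totient_pos.2 (Nat.pos_of_ne_zero hn0)
  obtain ⟨s1, s2⟩ := Pool.Agent.TH894.SM.sing_tot n hn0 h2
  have hC := C₂_nonneg
  obtain ⟨Q, hQ⟩ : ∃ Q : ℝ, Q = n / Real.log n ^ 2 := ⟨_, rfl⟩
  have hQ0 : 0 < Q := by rw [hQ]; positivity
  have e : (n : ℝ) ^ 2 / (n.totient * Real.log n ^ 2) = n / n.totient * Q := by
    rw [hQ]
    field_simp
  have hHL : HL n = sing n * Q := by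
    unfold HL
    rw [hQ]
  have hR0 : 0 < (n : ℝ) / n.totient := by positivity
  refine ⟨h1, ?_, ?_⟩
  · rw [e]
    rw [hHL, abs_le] at h1
    rcases le_or_gt ε 1 with hε1 | hε1
    · have h3 : (1 - ε) * (C₂ * (n / n.totient) * Q) ≤ (1 - ε) * (sing n * Q) := by
        apply mul_le_mul_of_nonneg_left _ (by linarith)
        exact mul_le_mul_of_nonneg_right s1 hQ0.le
      have e2 : (1 - ε) * C₂ * (n / n.totient * Q) = (1 - ε) * (C₂ * (n / n.totient) * Q) := by ring
      rw [e2]
      linarith [h1.1]
    · have h3 : (1 - ε) * C₂ * (n / n.totient * Q) ≤ 0 := by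
        apply mul_nonpos_of_nonpos_of_nonneg _ (by positivity)
        exact mul_nonpos_of_nonpos_of_nonneg (by linarith) hC
      exact h3.trans (Nat.cast_nonneg _)
  · rw [e]
    rw [hHL, abs_le] at h1
    have h3 : (1 + ε) * (sing n * Q) ≤ (1 + ε) * (n / n.totient * Q) := by
      apply mul_le_mul_of_nonneg_left _ (by linarith)
      exact mul_le_mul_of_nonneg_right s2 hQ0.le
    linarith [h1.2]

open Classical in
/-- Let `F` be a finite set of real numbers with the maximum `c > 0`, `a c ≠ 0`, and `f(t) = ∑_{x ∈ F} a x * t ^ x`.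
Let `D`, `U` be natural numbers and `ε > 0`. For all sufficiently large `Y`, for EVERY set `A ⊆ {1, ..., Y}` with at
least `Y / log ^ D Y` elements and every real number `k` with `|k| ≤ Y ^ c log ^ D Y`, all but at most
`|A| / log ^ U Y` elements `n` of `A` have the property that ALL even numbers `m > 0` with
`|m - (k + f(n))| ≤ log ^ D Y` satisfy `Holds ε m`. -/
theorem result (F : Finset ℝ) (a : ℝ → ℝ) (c : ℝ) (hcF : c ∈ F) (hmax : ∀ x ∈ F, x ≤ c)
    (hac : a c ≠ 0) (hc : 0 < c) (D U : ℕ) (ε : ℝ) (hε : 0 < ε) :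
    ∃ Y₀ : ℕ, ∀ Y : ℕ, Y₀ ≤ Y → ∀ A : Finset ℕ, A ⊆ Icc 1 Y →
      (Y : ℝ) / Real.log Y ^ D ≤ A.card →
      ∀ k : ℝ, |k| ≤ (Y : ℝ) ^ c * Real.log Y ^ D →
      ((A.filter (fun n : ℕ => ¬ ∀ m : ℕ, 0 < m → Even m →
        |(m : ℝ) - (k + f F a n)| ≤ Real.log Y ^ D → Holds ε m)).card : ℝ) ≤
        A.card / Real.log Y ^ U := by
  have HP : ∀ h : ℕ, 1 ≤ h → Pool.Agent.X31.FamP h (Pool.Agent.W93.GB.Good ε) :=
    fun h hh B C U => Pool.Agent.W93.GB.fam h B C U hh ε hε
  -- the sign of the leading coefficient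
  obtain ⟨a', κ, hκ, ha', hf⟩ : ∃ (a' : ℝ → ℝ) (κ : ℝ), κ ≠ 0 ∧ 0 < a' c ∧
      ∀ n : ℕ, κ * Pool.Agent.X31.gp F a' n = f F a n := by
    rcases lt_or_gt_of_ne hac with h | h
    · refine ⟨fun x => - a x, -1, by norm_num, by simpa using h, fun n => ?_⟩
      unfold Pool.Agent.X31.gp f
      rw [mul_sum]
      apply sum_congr rfl
      intro x _
      ring
    · exact ⟨a, 1, one_ne_zero, h, fun n => by rw [one_mul]; rfl⟩
  obtain ⟨Y₀, hY₀⟩ := Pool.Agent.X31.gp_main F a' c hcF hmax ha' hc κ hκ D U _ HP
  refine ⟨Y₀ + 3, fun Y hY A hA hAc k hk => ?_⟩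
  have hl : 0 < Real.log Y := Real.log_pos (by exact_mod_cast (by omega : 1 < Y))
  apply hY₀ Y (by omega) A hA (by
    rw [div_le_iff₀ (by positivity)] at hAc
    exact hAc) k hk _ (filter_subset _ _)
  intro n hn
  rw [mem_filter] at hn
  obtain ⟨_, hn⟩ := hn
  push Not at hn
  obtain ⟨m, hm0, hm2, hm3, hm4⟩ := hn
  refine ⟨m, hm0, hm2, by rw [hf]; exact hm3, fun hG => hm4 ?_⟩
  have h2 : 2 ∣ m := hm2.two_dvd
  exact holds_of ε hε m (Nat.le_of_dvd hm0 h2) h2 hG.1

end Pool.Agent.Results.MP_629a14_nt.GeneralisedPolynomials
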