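import Pool.Agent.TH882.I9

/-!
# Goldbach representations with an isolated prime have the conjectured order of magnitude

A prime `p` is called isolated (at level `R`) if there is no other prime at distance at most `R` from `p`. For every
`Λ > 0` there is `c > 0` such that for ALMOST ALL even `N` (the exceptions have density `0`) at least
`c N ^ 2 / (φ(N) log ^ 2 N)` of the representations `N = p + q` as a sum of two primes have a first prime `p` with no
other prime at distance at most `Λ log N`. Here `Λ` is arbitrarily large: the average distance of the primes near `N` is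
`log N`, so only a small proportion of the primes can be isolated in this sense.

The theorem is assembled from the starting files (`Pool.Agent.TH882.I9`): isolated primes have a positive lower density
in every reduced residue class to moduli `W` which tend to infinity (Selberg type weights with moments), and a
transference theorem for Goldbach's problem with one prime restricted to such a set.
-/

set_option autoImplicit false

namespace Pool.Agent.Results.MP_629a14_nt.IsolatedSummands

open Finset Filter Topology

/-- `p` is a prime, and no other prime is at distance at most `R` from `p`. -/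
def IsolatedPrime (R : ℝ) (p : ℕ) : Prop := p.Prime ∧ ∀ q : ℕ, q.Prime → |(q : ℝ) - p| ≤ R → q = p

open Classical in
/-- The number of the representations `N = p + (N - p)` as a sum of two primes in which there is no other prime at
distance at most `Λ log N` from the first prime `p`. -/
noncomputable def isolatedCount (Λ : ℝ) (N : ℕ) : ℕ :=
  ((Icc 1 (N - 1)).filter (fun p => IsolatedPrime (Λ * Real.log N) p ∧ (N - p).Prime)).card

open Classical in
/-- The even `N ≤ x` with fewer than `c N ^ 2 / (φ(N) log ^ 2 N)` such representations. -/
noncomputable def exceptions (Λ c : ℝ) (x : ℕ) : Finset ℕ :=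
  (Icc 1 x).filter (fun N => Even N ∧
    (isolatedCount Λ N : ℝ) < c * ((N : ℝ) ^ 2 / (N.totient * Real.log N ^ 2)))

/-- For every `Λ > 0` there is `c > 0` such that almost all even `N` have at least `c N ^ 2 / (φ(N) log ^ 2 N)`
representations `N = p + q` as a sum of two primes in which no other prime is at distance at most `Λ log N` from
`p`: the number of exceptions `N ≤ x` is `o(x)`. -/
theorem result (Λ : ℝ) (hΛ : 0 < Λ) : ∃ c : ℝ, 0 < c ∧
    Tendsto (fun x : ℕ => ((exceptions Λ c x).card : ℝ) / x) atTop (𝓝 0) := by
  classical
  obtain ⟨c, hc, h⟩ := Pool.Agent.TH882.IS.goldbach_iso Λ hΛ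
  refine ⟨c, hc, ?_⟩
  refine squeeze_zero (fun x => by positivity) (fun x => ?_) h
  apply div_le_div_of_nonneg_right _ (Nat.cast_nonneg x)
  apply Nat.cast_le.2
  apply card_le_card
  intro N hN
  unfold exceptions at hN
  rw [mem_filter, mem_Icc] at hN
  obtain ⟨hN1, hN2, hN3⟩ := hN
  rw [mem_filter, mem_Icc]
  refine ⟨hN1, hN2, lt_of_le_of_lt ?_ hN3⟩
  apply Nat.cast_le.2
  unfold isolatedCount
  apply card_le_card
  intro p hp
  unfold Pool.Agent.TH882.IS.RG at hp
  rw [mem_filter, mem_range] at hp
  obtain ⟨hp1, hp2, hp3, hp4⟩ := hp
  rw [mem_filter, mem_Icc]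
  refine ⟨⟨hp2.pos, by omega⟩, ⟨hp2, ?_⟩, hp3⟩
  intro q hq hqp
  rw [abs_le] at hqp
  exact hp4 q hq (by linarith [hqp.2]) (by linarith [hqp.1])

end Pool.Agent.Results.MP_629a14_nt.IsolatedSummands
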