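import Pool.Agent.Y843.HG.Gold

/-!
# Goldbach representations lie in narrow progressions of representations

The conjectured order of the number of representations of an even `n` as a sum of two primes is
`n² / (φ(n) (log n)²)`, in a window of length `H` it is `H n / (φ(n) (log n)²)`. Here: for EVERY large even
`n` and every window of length `H ≥ n ^ θ` all representations `n = p + q` with `p` in the window, with the
exception of at most `ε` times this order, lie in progressions of `k` representations
`n = (a + j d) + (n - a - j d)`, `j < k`, with a difference `d ≤ (log n) ^ B`. The same is true within every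
set of such representations, and for the representations by rough numbers.
-/

set_option autoImplicit false

namespace Pool.Agent.Results.MP_629a14_nt.NarrowProgressions

open Finset

open Classical in
/-- The elements of `S` which are not terms of a progression of `k` elements of `S` with a difference
`1 ≤ d ≤ D`. -/
noncomputable def outside (k : ℕ) (D : ℝ) (S : Finset ℕ) : Finset ℕ :=
  S.filter (fun m => ¬ ∃ a d : ℕ, 1 ≤ d ∧ (d : ℝ) ≤ D ∧ (∀ j < k, a + j * d ∈ S) ∧ ∃ j < k, m = a + j * d)

/-- Neither `m` nor `n - m` has a prime factor `p ≤ n ^ (1 / r)`. -/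
def Rough (r n m : ℕ) : Prop :=
  ∀ p : ℕ, p.Prime → (p : ℝ) ≤ (n : ℝ) ^ (1 / (r : ℝ)) → ¬ (p : ℤ) ∣ m ∧ ¬ (p : ℤ) ∣ (n : ℤ) - m

/-- The conjectured order of the number of representations of `n` in a window of length `H`. -/
noncomputable def order (n H : ℕ) : ℝ := H * (n / (n.totient * Real.log n ^ 2))

/-- Let `k, r ≥ 1` and `θ, ε > 0`. There are `B` and `n₀` such that for every even `n ≥ n₀` and every window
`(y, y + H]`:
(1) if `n ^ θ ≤ H`, `y + H ≤ n`, then in every set `S` of numbers `p` of the window for which `p` and `n - p`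
are primes all but at most `ε H n / (φ(n) (log n)²)` elements are terms of progressions of `k` elements
of `S` with a difference `1 ≤ d ≤ (log n) ^ B`;
(2) if `n ^ θ ≤ H ≤ n`, the same is true in every set `S` of integers `m` of the window such that neither `m`
nor `n - m` has a prime factor `≤ n ^ (1 / r)`. -/
theorem result (k r : ℕ) (hk : 1 ≤ k) (hr : 1 ≤ r) (θ ε : ℝ) (hθ : 0 < θ) (hε : 0 < ε) :
    ∃ B n₀ : ℕ, ∀ n : ℕ, n₀ ≤ n → Even n → ∀ y H : ℕ, (n : ℝ) ^ θ ≤ H →
      (y + H ≤ n → ∀ S : Finset ℕ, S ⊆ Ioc y (y + H) → (∀ p ∈ S, p.Prime ∧ (n - p).Prime) →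
        ((outside k (Real.log n ^ B) S).card : ℝ) ≤ ε * order n H) ∧
      (H ≤ n → ∀ S : Finset ℕ, S ⊆ Ioc y (y + H) → (∀ m ∈ S, Rough r n m) →
        ((outside k (Real.log n ^ B) S).card : ℝ) ≤ ε * order n H) := by
  classical
  obtain ⟨B1, n1, h1⟩ := Pool.Agent.Y843.HG.gold_primes hk hθ hε
  obtain ⟨B2, n2, h2⟩ := Pool.Agent.Y843.HG.gold hk r hr hθ hε
  refine ⟨max B1 B2, max (max n1 n2) 3, fun n hn hne y H hH => ?_⟩
  have hn1 : n1 ≤ n := (le_max_left _ _).trans ((le_max_left _ _).trans hn)
  have hn2 : n2 ≤ n := (le_max_right _ _).trans ((le_max_left _ _).trans hn)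
  have hn3 : 3 ≤ n := (le_max_right _ _).trans hn
  have hlog : 1 ≤ Real.log n := by
    have h4 : (3 : ℝ) ≤ n := by exact_mod_cast hn3
    have := Real.exp_one_lt_d9
    rw [Real.le_log_iff_exp_le (by linarith)]
    linarith
  have hanti : ∀ (b : ℕ), b ≤ max B1 B2 → ∀ S : Finset ℕ,
      ((outside k (Real.log n ^ (max B1 B2)) S).card : ℝ) ≤
        ((Pool.Agent.Y843.HG.Iso k (Real.log n ^ b) S).card : ℝ) := by
    intro b hb S
    exact_mod_cast card_le_card
      (Pool.Agent.Y843.HG.Iso_anti (pow_le_pow_right₀ hlog hb) S : Pool.Agent.Y843.HG.Iso k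
        (Real.log n ^ (max B1 B2)) S ⊆ Pool.Agent.Y843.HG.Iso k (Real.log n ^ b) S)
  constructor
  · intro hyH S hS hSp
    exact (hanti B1 (le_max_left _ _) S).trans (h1 n hn1 hne y H hH hyH S hS hSp)
  · intro hHn S hS hSr
    refine (hanti B2 (le_max_right _ _) S).trans (h2 n hn2 hne y H hH hHn S hS ?_)
    intro m hm p hp hpn
    obtain ⟨h3, h4⟩ := hSr m hm p hp hpn
    refine ⟨fun h => h3 (by exact_mod_cast h), fun h => h4 ?_⟩
    exact (Nat.modEq_iff_dvd.1 (show m ≡ n [MOD p] from h.symm))

end Pool.Agent.Results.MP_629a14_nt.NarrowProgressions
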